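import Pool.Agent.N566.VV.Defs

/-!
# The operator of the tangle of a tree (S_TW)

Project VV (helper566); this file by helper346.
-/

set_option autoImplicit false
set_option linter.unusedSectionVars false

namespace Pool.Agent.N346.VV

open Pool.Agent.H835R2.Knot
open Pool.Agent.H550R3.Jones (br brf Adm crossP crossN)
open Pool.Agent.N566.VV
open Finset

section
variable {ι : Type} [Fintype ι] [DecidableEq ι]

theorem opD_append (T : Dat ι) (D E : Word) (A : Front) (f : F ι) :
    opD T (D ++ E) A f = opD T D A (opD T E (run D A) f) := by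
  induction D generalizing A with
  | nil => rfl
  | cons p w ih =>
    change opP T p A.dir (opD T (w ++ E) (p.act A) f) = _
    rw [ih]
    rfl

theorem Xl_smul (M : Matrix (ι × ι) (ι × ι) ℂ) (i : ℕ) (c : ℂ) (f : F ι) :
    Xl M i (c • f) = c • Xl M i f := by
  funext σ
  simp only [Xl, Pi.smul_apply, smul_eq_mul, Finset.mul_sum]
  refine Finset.sum_congr rfl fun p _ => ?_
  ring

theorem smul_Xl (M : Matrix (ι × ι) (ι × ι) ℂ) (i : ℕ) (c : ℂ) (f : F ι) :
    Xl (c • M) i f = c • Xl M i f := by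
  funext σ
  simp only [Xl, Matrix.smul_apply, Pi.smul_apply, smul_eq_mul, Finset.mul_sum]
  refine Finset.sum_congr rfl fun p _ => ?_
  ring

theorem Bl_smul (T : Dat ι) (i : ℕ) (c : ℂ) (f : F ι) : Bl T i (c • f) = c • Bl T i f := by
  funext σ
  simp only [Bl, Pi.smul_apply, smul_eq_mul, Finset.mul_sum]
  refine Finset.sum_congr rfl fun p _ => ?_
  ring

theorem Dl_smul (T : Dat ι) (i : ℕ) (c : ℂ) (f : F ι) : Dl T i (c • f) = c • Dl T i f := by
  funext σ
  simp only [Dl, Pi.smul_apply, smul_eq_mul]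
  split
  · ring
  · rw [mul_zero]

theorem opP_smul (T : Dat ι) (p : Piece) (d : ℕ → Bool) (c : ℂ) (f : F ι) :
    opP T p d (c • f) = c • opP T p d f := by
  cases p with
  | birth i b => exact Bl_smul T i c f
  | death i => exact Dl_smul T i c f
  | pos i =>
    change _ • Xl T.P i (c • f) = c • (_ • Xl T.P i f)
    rw [Xl_smul, smul_comm]
  | neg i =>
    change _ • Xl T.Q i (c • f) = c • (_ • Xl T.Q i f)
    rw [Xl_smul, smul_comm]

theorem opD_smul (T : Dat ι) (D : Word) (A : Front) (c : ℂ) (f : F ι) :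
    opD T D A (c • f) = c • opD T D A f := by
  induction D generalizing A with
  | nil => rfl
  | cons p w ih =>
    change opP T p A.dir (opD T w (p.act A) (c • f)) = c • opP T p A.dir (opD T w (p.act A) f)
    rw [ih, opP_smul]

theorem updS_0 (i : ℕ) (x y : ι) (σ : ℕ → ι) : updS i x y σ i = x := by simp [updS]

theorem updS_1 (i : ℕ) (x y : ι) (σ : ℕ → ι) : updS i x y σ (i + 1) = y := by simp [updS]

theorem updS_updS (i : ℕ) (x y x' y' : ι) (σ : ℕ → ι) :
    updS i x' y' (updS i x y σ) = updS i x' y' σ := by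
  funext p
  unfold updS
  split_ifs <;> rfl

theorem updS_self (i : ℕ) (σ : ℕ → ι) : updS i (σ i) (σ (i + 1)) σ = σ := by
  funext p
  unfold updS
  split_ifs with h1 h2
  · rw [h1]
  · rw [h2]
  · rfl

theorem Xl_mul (M M' : Matrix (ι × ι) (ι × ι) ℂ) (i : ℕ) (f : F ι) :
    Xl M i (Xl M' i f) = Xl (M * M') i f := by
  funext σ
  simp only [Xl, updS_0, updS_1, updS_updS, Matrix.mul_apply, Finset.mul_sum, Finset.sum_mul]
  rw [Finset.sum_comm]
  refine Finset.sum_congr rfl fun q _ => Finset.sum_congr rfl fun p _ => ?_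
  rw [mul_assoc]

theorem Xl_one (i : ℕ) (f : F ι) : Xl (1 : Matrix (ι × ι) (ι × ι) ℂ) i f = f := by
  funext σ
  simp only [Xl]
  rw [Finset.sum_eq_single (σ i, σ (i + 1))]
  · rw [Matrix.one_apply_eq, one_mul, updS_self]
  · intro q _ hq
    rw [Matrix.one_apply_ne (Ne.symm hq), zero_mul]
  · intro h
    exact absurd (Finset.mem_univ _) h

end

/-! ### three strands -/

section
variable {N : ℕ}

/-- change the labels at three places -/
def upd3 (i : ℕ) (p : Fin N × Fin N × Fin N) (σ : ℕ → Fin N) : ℕ → Fin N :=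
  fun j => if j = i then p.1 else if j = i + 1 then p.2.1 else if j = i + 2 then p.2.2 else σ j

/-- operators on three strands -/
def Xl3 (M : Matrix (Fin N × Fin N × Fin N) (Fin N × Fin N × Fin N) ℂ) (i : ℕ) (f : F (Fin N)) :
    F (Fin N) :=
  fun σ => ∑ p : Fin N × Fin N × Fin N, M (σ i, σ (i + 1), σ (i + 2)) p * f (upd3 i p σ)

theorem upd3_0 (i : ℕ) (p : Fin N × Fin N × Fin N) (σ : ℕ → Fin N) : upd3 i p σ i = p.1 := by
  simp [upd3]

theorem upd3_1 (i : ℕ) (p : Fin N × Fin N × Fin N) (σ : ℕ → Fin N) :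
    upd3 i p σ (i + 1) = p.2.1 := by
  simp [upd3]

theorem upd3_2 (i : ℕ) (p : Fin N × Fin N × Fin N) (σ : ℕ → Fin N) :
    upd3 i p σ (i + 2) = p.2.2 := by
  simp [upd3]

theorem upd3_upd3 (i : ℕ) (p q : Fin N × Fin N × Fin N) (σ : ℕ → Fin N) :
    upd3 i q (upd3 i p σ) = upd3 i q σ := by
  funext j
  unfold upd3
  split_ifs <;> rfl

theorem Xl3_mul (M M' : Matrix (Fin N × Fin N × Fin N) (Fin N × Fin N × Fin N) ℂ) (i : ℕ)
    (f : F (Fin N)) : Xl3 M i (Xl3 M' i f) = Xl3 (M * M') i f := by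
  funext σ
  simp only [Xl3, upd3_0, upd3_1, upd3_2, upd3_upd3, Matrix.mul_apply, Finset.mul_sum,
    Finset.sum_mul]
  rw [Finset.sum_comm]
  refine Finset.sum_congr rfl fun q _ => Finset.sum_congr rfl fun p _ => ?_
  rw [mul_assoc]

theorem Xl_on12 (M : Matrix (Fin N × Fin N) (Fin N × Fin N) ℂ) (i : ℕ) (f : F (Fin N)) :
    Xl M i f = Xl3 (on12 M) i f := by
  funext σ
  simp only [Xl, Xl3, on12, Fintype.sum_prod_type]
  refine Finset.sum_congr rfl fun x _ => Finset.sum_congr rfl fun y _ => ?_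
  rw [Finset.sum_eq_single (σ (i + 2))]
  · rw [if_pos rfl]
    congr 2
    funext j
    simp only [updS, upd3]
    split_ifs with h1 h2 h3
    · rfl
    · rfl
    · rw [h3]
    · rfl
  · intro z _ hz
    rw [if_neg (Ne.symm hz), zero_mul]
  · intro h
    exact absurd (Finset.mem_univ _) h

theorem Xl_on23 (M : Matrix (Fin N × Fin N) (Fin N × Fin N) ℂ) (i : ℕ) (f : F (Fin N)) :
    Xl M (i + 1) f = Xl3 (on23 M) i f := by
  funext σ
  simp only [Xl, Xl3, on23, Fintype.sum_prod_type]
  rw [Finset.sum_eq_single (σ i)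
    (f := fun x => ∑ y, ∑ z, (if σ i = x then M (σ (i + 1), σ (i + 2)) (y, z) else 0) *
      f (upd3 i (x, y, z) σ))]
  · refine Finset.sum_congr rfl fun x _ => Finset.sum_congr rfl fun y _ => ?_
    rw [if_pos rfl]
    congr 2
    funext j
    simp only [updS, upd3]
    split_ifs
    all_goals first | rfl | omega | (congr 1)
  · intro z _ hz
    refine Finset.sum_eq_zero fun x _ => Finset.sum_eq_zero fun y _ => ?_
    rw [if_neg (Ne.symm hz), zero_mul]
  · intro h
    exact absurd (Finset.mem_univ _) h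

/-- a maximum, an operator on three strands, a minimum -/
theorem cap3 (T : Dat (Fin N)) (hr : ∀ x, T.rev (T.rev x) = x)
    (M : Matrix (Fin N × Fin N × Fin N) (Fin N × Fin N × Fin N) ℂ) (i : ℕ) (f : F (Fin N)) :
    Bl T (i + 2) (Xl3 M i (Dl T (i + 2) f)) =
      Xl (fun p q => ∑ x, T.c x * T.d x * M (p.1, (p.2, x)) (q.1, (q.2, x))) i f := by
  funext σ
  have key : ∀ (x : Fin N) (p : Fin N × Fin N × Fin N),
      Dl T (i + 2) f (upd3 i p (insS (i + 2) x (T.rev x) σ)) =
        if p.2.2 = x then T.d x * f (updS i p.1 p.2.1 σ) else 0 := by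
    intro x p
    have h1 : upd3 i p (insS (i + 2) x (T.rev x) σ) (i + 2 + 1) = T.rev x := by
      simp only [upd3, insS]
      split_ifs
      all_goals first | rfl | omega
    have h2 : upd3 i p (insS (i + 2) x (T.rev x) σ) (i + 2) = p.2.2 := upd3_2 _ _ _
    have h3 : delS (i + 2) (upd3 i p (insS (i + 2) x (T.rev x) σ)) = updS i p.1 p.2.1 σ := by
      funext j
      simp only [delS, upd3, insS, updS]
      split_ifs
      all_goals first | rfl | omega
    unfold Dl
    rw [h1, h2, h3]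
    by_cases h : p.2.2 = x
    · rw [if_pos h, h, if_pos rfl]
    · rw [if_neg h, if_neg]
      intro h4
      apply h
      rw [← hr p.2.2, ← h4, hr]
  have e0 : ∀ x : Fin N, insS (i + 2) x (T.rev x) σ i = σ i := by
    intro x
    simp [insS]
  have e1 : ∀ x : Fin N, insS (i + 2) x (T.rev x) σ (i + 1) = σ (i + 1) := by
    intro x
    simp [insS]
  have e2 : ∀ x : Fin N, insS (i + 2) x (T.rev x) σ (i + 2) = x := by
    intro x
    simp [insS]
  simp only [Bl, Xl3, key, e0, e1, e2, Xl, Fintype.sum_prod_type, Finset.mul_sum, Finset.sum_mul]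
  rw [Finset.sum_comm]
  refine Finset.sum_congr rfl fun q _ => ?_
  rw [Finset.sum_comm]
  refine Finset.sum_congr rfl fun q' _ => ?_
  refine Finset.sum_congr rfl fun x _ => ?_
  rw [Finset.sum_eq_single x]
  · rw [if_pos rfl]
    ring
  · intro z _ hz
    rw [if_neg hz, mul_zero, mul_zero]
  · intro h
    exact absurd (Finset.mem_univ _) h

/-- rotation of an operator on two strands -/
theorem cap2 (T : Dat (Fin N)) (hr : ∀ x, T.rev (T.rev x) = x)
    (M : Matrix (Fin N × Fin N) (Fin N × Fin N) ℂ) (i : ℕ) (f : F (Fin N)) :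
    Bl T (i + 2) (Xl M (i + 1) (Dl T i f)) =
      Xl (fun p q => T.d p.1 * T.c (T.rev q.2) * M (p.2, T.rev q.2) (T.rev p.1, q.1)) i f := by
  funext σ
  have key : ∀ (x s t : Fin N),
      Dl T i f (updS (i + 1) s t (insS (i + 2) x (T.rev x) σ)) =
        if s = T.rev (σ i) then T.d (σ i) * f (updS i t (T.rev x) σ) else 0 := by
    intro x s t
    have h1 : updS (i + 1) s t (insS (i + 2) x (T.rev x) σ) (i + 1) = s := by
      simp [updS]
    have h2 : updS (i + 1) s t (insS (i + 2) x (T.rev x) σ) i = σ i := by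
      simp only [updS, insS]
      split_ifs
      all_goals first | rfl | omega
    have h3 : delS i (updS (i + 1) s t (insS (i + 2) x (T.rev x) σ)) = updS i t (T.rev x) σ := by
      funext j
      simp only [delS, insS, updS]
      split_ifs
      all_goals first | rfl | omega
    unfold Dl
    rw [h1, h2, h3]
  have e1 : ∀ x : Fin N, insS (i + 2) x (T.rev x) σ (i + 1) = σ (i + 1) := by
    intro x
    simp [insS]
  have e2 : ∀ x : Fin N, insS (i + 2) x (T.rev x) σ (i + 1 + 1) = x := by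
    intro x
    simp [insS]
  simp only [Bl, key, e1, e2, Xl, Fintype.sum_prod_type, Finset.mul_sum]
  -- the right hand side
  have h4 : ∀ q : Fin N, ∑ y, T.d (σ i) * T.c (T.rev y) *
      M (σ (i + 1), T.rev y) (T.rev (σ i), q) * f (updS i q y σ) =
      ∑ x, T.d (σ i) * T.c x * M (σ (i + 1), x) (T.rev (σ i), q) * f (updS i q (T.rev x) σ) := by
    intro q
    let E : Fin N ≃ Fin N := ⟨T.rev, T.rev, hr, hr⟩
    rw [← E.sum_comp]
    refine Finset.sum_congr rfl fun x _ => ?_
    change T.d (σ i) * T.c (T.rev (T.rev x)) * M (σ (i + 1), T.rev (T.rev x)) (T.rev (σ i), q) *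
      f (updS i q (T.rev x) σ) = _
    rw [hr]
  simp only [h4]
  rw [Finset.sum_comm (s := (Finset.univ : Finset (Fin N))) (t := (Finset.univ : Finset (Fin N)))
    (f := fun q x => T.d (σ i) * T.c x * M (σ (i + 1), x) (T.rev (σ i), q) *
      f (updS i q (T.rev x) σ))]
  refine Finset.sum_congr rfl fun x _ => ?_
  rw [Finset.sum_eq_single (T.rev (σ i))]
  · refine Finset.sum_congr rfl fun t _ => ?_
    rw [if_pos rfl]
    ring
  · intro z _ hz
    refine Finset.sum_eq_zero fun t _ => ?_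
    rw [if_neg hz, mul_zero, mul_zero]
  · intro h
    exact absurd (Finset.mem_univ _) h

end

/-! ### the data of the coloured Jones polynomial -/

section
variable {N : ℕ} {v : ℂ}

theorem brf_ne (h : Adm N v) {j : ℕ} (hj : j < N) : brf v j ≠ 0 := by
  unfold brf
  rw [Finset.prod_ne_zero_iff]
  intro k hk
  have h1 := Finset.mem_range.1 hk
  have h2 := h.2 (k + 1) (by omega) (by omega)
  push_cast at h2
  exact h2

theorem rev_rev (N : ℕ) (v : ℂ) (x : Fin N) : (datJ N v).rev ((datJ N v).rev x) = x :=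
  Fin.rev_rev x

theorem kap_ne (h : Adm N v) (x : Fin N) : kap N v x ≠ 0 := by
  have hx := x.2
  unfold kap
  have h1 := brf_ne h hx
  have h2 := brf_ne h (show N - 1 - (x : ℕ) < N by omega)
  have h3 := brf_ne h (show N - 1 < N by omega)
  exact mul_ne_zero (mul_ne_zero (pow_ne_zero _ (by norm_num))
    (div_ne_zero (mul_ne_zero h1 h2) h3)) (zpow_ne_zero _ h.1)

theorem kap_cup (h : Adm N v) (x y : Fin N) :
    kap N v x * (kap N v y)⁻¹ = cup N v x / cup N v y := by
  have hx := x.2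
  have e : ∀ j : ℕ, kap N v j = cup N v j * (brf v (N - 1))⁻¹ := by
    intro j
    unfold kap cup
    ring
  have h3 : (brf v (N - 1))⁻¹ ≠ 0 := inv_ne_zero (brf_ne h (show N - 1 < N by omega))
  rw [e, e, mul_inv, mul_mul_mul_comm, mul_inv_cancel₀ h3, mul_one, div_eq_mul_inv]

/-- the weight of a circle -/
theorem cd (hN : Odd N) (h : Adm N v) (x : Fin N) :
    (datJ N v).c x * (datJ N v).d x = v ^ ((N : ℤ) - 1 - 2 * (x : ℕ)) := by
  have hx := x.2
  change (kap N v (Fin.rev x : Fin N))⁻¹ * kap N v x = _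
  have hr : ((Fin.rev x : Fin N) : ℕ) = N - 1 - x := by
    rw [Fin.val_rev]
    omega
  have h0 := kap_ne h (Fin.rev x)
  rw [inv_mul_eq_iff_eq_mul₀ h0, hr]
  unfold kap
  have h1 : N - 1 - (N - 1 - (x : ℕ)) = x := by omega
  rw [h1]
  have h2 : ((-1 : ℂ)) ^ (x : ℕ) = (-1) ^ (N - 1 - (x : ℕ)) := by
    obtain ⟨k, hk⟩ := hN
    have h3 : N - 1 - (x : ℕ) + x = 2 * k := by omega
    have h4 : ((-1 : ℂ)) ^ (N - 1 - (x : ℕ) + x) = 1 := by rw [h3, pow_mul]; norm_num
    rw [pow_add] at h4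
    have h5 : ((-1 : ℂ)) ^ (x : ℕ) * (-1) ^ (x : ℕ) = 1 := by
      rw [← mul_pow]; norm_num
    have h6 : ((-1 : ℂ)) ^ (x : ℕ) ≠ 0 := pow_ne_zero _ (by norm_num)
    exact mul_right_cancel₀ h6 (h5.trans h4.symm)
  have h7 : ((N - 1 - (x : ℕ) : ℕ) : ℤ) = (N : ℤ) - 1 - x := by omega
  rw [h2, h7]
  have h8 : v ^ (((x : ℕ) : ℤ) * ((N : ℤ) - 2 - (x : ℕ))) =
      v ^ (((N : ℤ) - 1 - (x : ℕ)) * ((N : ℤ) - 2 - ((N : ℤ) - 1 - (x : ℕ)))) *
        v ^ ((N : ℤ) - 1 - 2 * (x : ℕ)) := by
    rw [← zpow_add₀ h.1]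
    congr 1
    ring
  rw [h8]
  ring

end

/-! ### words -/

/-- the operator of `D` is the matrix `B v` at `i`, up to a power of `v` -/
def Rep (N : ℕ) (D : Word) (A : Front) (B : ℂ → Matrix (Fin N × Fin N) (Fin N × Fin N) ℂ)
    (i : ℕ) : Prop :=
  ∃ e : ℤ, ∀ v : ℂ, Adm N v → ∀ f : F (Fin N), opD (datJ N v) D A f = v ^ e • Xl (B v) i f

theorem Rep.nil (N : ℕ) (A : Front) (i : ℕ) : Rep N [] A (fun _ => 1) i :=
  ⟨0, fun v _ f => by
    rw [zpow_zero, one_smul, Xl_one]
    rfl⟩

theorem Rep.append {N : ℕ} {D E : Word} {A : Front}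
    {B B' : ℂ → Matrix (Fin N × Fin N) (Fin N × Fin N) ℂ} {i : ℕ} (h : Rep N D A B i)
    (h' : Rep N E (run D A) B' i) : Rep N (D ++ E) A (fun v => B v * B' v) i := by
  obtain ⟨e, he⟩ := h
  obtain ⟨e', he'⟩ := h'
  refine ⟨e + e', fun v hv f => ?_⟩
  rw [opD_append, he' v hv, opD_smul, he v hv, Xl_mul, smul_smul, zpow_add₀ hv.1, mul_comm]

theorem Rep.pos (N : ℕ) (A : Front) (i : ℕ) : Rep N [.pos i] A (fun v => crossP N v) i := by
  by_cases h : A.dir i = A.dir (i + 1)
  · refine ⟨0, fun v hv f => ?_⟩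
    change (if A.dir i = A.dir (i + 1) then (datJ N v).k else (datJ N v).k') •
      Xl (datJ N v).P i f = _
    rw [if_pos h]
    change v ^ (-fr N) • Xl (v ^ fr N • crossP N v) i f = _
    rw [smul_Xl, smul_smul, ← zpow_add₀ hv.1, neg_add_cancel]
  · refine ⟨fr N + fr N, fun v hv f => ?_⟩
    change (if A.dir i = A.dir (i + 1) then (datJ N v).k else (datJ N v).k') •
      Xl (datJ N v).P i f = _
    rw [if_neg h]
    change v ^ (fr N) • Xl (v ^ fr N • crossP N v) i f = _
    rw [smul_Xl, smul_smul, ← zpow_add₀ hv.1]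

theorem Rep.neg (N : ℕ) (A : Front) (i : ℕ) : Rep N [.neg i] A (fun v => crossN N v) i := by
  by_cases h : A.dir i = A.dir (i + 1)
  · refine ⟨0, fun v hv f => ?_⟩
    change (if A.dir i = A.dir (i + 1) then (datJ N v).k' else (datJ N v).k) •
      Xl (datJ N v).Q i f = _
    rw [if_pos h]
    change v ^ (fr N) • Xl (v ^ (-fr N) • crossN N v) i f = _
    rw [smul_Xl, smul_smul, ← zpow_add₀ hv.1, add_neg_cancel]
  · refine ⟨-fr N + -fr N, fun v hv f => ?_⟩
    change (if A.dir i = A.dir (i + 1) then (datJ N v).k' else (datJ N v).k) •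
      Xl (datJ N v).Q i f = _
    rw [if_neg h]
    change v ^ (-fr N) • Xl (v ^ (-fr N) • crossN N v) i f = _
    rw [smul_Xl, smul_smul, ← zpow_add₀ hv.1]

theorem plain_pos {p : Piece} {i : ℕ} (h : plain p = .pos i) : p = .pos i := by
  cases p with
  | birth j b => exact absurd h (by simp [plain])
  | death j => exact absurd h (by simp [plain])
  | pos j => exact h
  | neg j => exact absurd h (by simp [plain])

theorem plain_neg {p : Piece} {i : ℕ} (h : plain p = .neg i) : p = .neg i := by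
  cases p with
  | birth j b => exact absurd h (by simp [plain])
  | death j => exact absurd h (by simp [plain])
  | pos j => exact absurd h (by simp [plain])
  | neg j => exact h

theorem plain_death {p : Piece} {i : ℕ} (h : plain p = .death i) : p = .death i := by
  cases p with
  | birth j b => exact absurd h (by simp [plain])
  | death j => exact h
  | pos j => exact absurd h (by simp [plain])
  | neg j => exact absurd h (by simp [plain])

theorem plain_birth {p : Piece} {i : ℕ} (h : plain p = .birth i true) : ∃ b, p = .birth i b := by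
  cases p with
  | birth j b =>
    refine ⟨b, ?_⟩
    simp only [plain, Piece.birth.injEq, and_true] at h
    rw [h]
  | death j => exact absurd h (by simp [plain])
  | pos j => exact absurd h (by simp [plain])
  | neg j => exact absurd h (by simp [plain])

theorem Rep.posN (N : ℕ) (i n : ℕ) : ∀ (D : Word) (A : Front),
    D.map plain = List.replicate n (.pos i) → Rep N D A (fun v => crossP N v ^ n) i := by
  induction n with
  | zero =>
    intro D A h
    rw [List.replicate_zero, List.map_eq_nil_iff] at h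
    subst h
    simp only [pow_zero]
    exact Rep.nil N A i
  | succ n ih =>
    intro D A h
    rw [List.replicate_succ, List.map_eq_cons_iff] at h
    obtain ⟨p, w, rfl, hp, hw⟩ := h
    rw [plain_pos hp]
    simp only [pow_succ']
    exact (Rep.pos N A i).append (ih w _ hw)

theorem Rep.negN (N : ℕ) (i n : ℕ) : ∀ (D : Word) (A : Front),
    D.map plain = List.replicate n (.neg i) → Rep N D A (fun v => crossN N v ^ n) i := by
  induction n with
  | zero =>
    intro D A h
    rw [List.replicate_zero, List.map_eq_nil_iff] at h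
    subst h
    simp only [pow_zero]
    exact Rep.nil N A i
  | succ n ih =>
    intro D A h
    rw [List.replicate_succ, List.map_eq_cons_iff] at h
    obtain ⟨p, w, rfl, hp, hw⟩ := h
    rw [plain_neg hp]
    simp only [pow_succ']
    exact (Rep.neg N A i).append (ih w _ hw)

theorem Rep.cross (N : ℕ) (i : ℕ) (a : ℤ) (D : Word) (A : Front)
    (h : D.map plain = crossW i a) :
    Rep N D A (fun v => if 0 ≤ a then crossP N v ^ a.toNat else crossN N v ^ (-a).toNat) i := by
  unfold crossW at h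
  by_cases ha : 0 ≤ a
  · rw [if_pos ha] at h
    simp only [if_pos ha]
    exact Rep.posN N i _ D A h
  · rw [if_neg ha] at h
    simp only [if_neg ha]
    exact Rep.negN N i _ D A h

/-- words of crossings on three strands -/
theorem Rep.three {N : ℕ} {D : Word} {A : Front} {i : ℕ}
    {B : ℂ → Matrix (Fin N × Fin N) (Fin N × Fin N) ℂ} :
    (Rep N D A B i → ∃ e : ℤ, ∀ v : ℂ, Adm N v → ∀ f : F (Fin N),
      opD (datJ N v) D A f = v ^ e • Xl3 (on12 (B v)) i f) ∧
    (Rep N D A B (i + 1) → ∃ e : ℤ, ∀ v : ℂ, Adm N v → ∀ f : F (Fin N),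
      opD (datJ N v) D A f = v ^ e • Xl3 (on23 (B v)) i f) := by
  constructor
  · rintro ⟨e, he⟩
    refine ⟨e, fun v hv f => ?_⟩
    rw [he v hv, Xl_on12]
  · rintro ⟨e, he⟩
    refine ⟨e, fun v hv f => ?_⟩
    rw [he v hv, Xl_on23]

theorem Rep.belt (N : ℕ) (hN : Odd N) (i : ℕ) (D : Word) (A : Front)
    (h : D.map plain = beltW i) : Rep N D A (fun v => Pool.Agent.N566.VV.belt N v) i := by
  unfold beltW at h
  obtain ⟨p1, w1, rfl, h1, h⟩ := List.map_eq_cons_iff.1 h
  obtain ⟨p2, w2, rfl, h2, h⟩ := List.map_eq_cons_iff.1 h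
  obtain ⟨p3, w3, rfl, h3, h⟩ := List.map_eq_cons_iff.1 h
  obtain ⟨p4, w4, rfl, h4, h⟩ := List.map_eq_cons_iff.1 h
  obtain ⟨p5, w5, rfl, h5, h⟩ := List.map_eq_cons_iff.1 h
  obtain ⟨p6, w6, rfl, h6, h⟩ := List.map_eq_cons_iff.1 h
  rw [List.map_eq_nil_iff] at h
  subst h
  obtain ⟨b, rfl⟩ := plain_birth h1
  rw [plain_pos h2, plain_pos h3, plain_pos h4, plain_pos h5, plain_death h6]
  obtain ⟨A1, hA1⟩ : ∃ A1 : Front, A1 = (Piece.birth (i + 2) b).act A := ⟨_, rfl⟩
  obtain ⟨A2, hA2⟩ : ∃ A2 : Front, A2 = (Piece.pos (i + 1)).act A1 := ⟨_, rfl⟩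
  obtain ⟨A3, hA3⟩ : ∃ A3 : Front, A3 = (Piece.pos i).act A2 := ⟨_, rfl⟩
  obtain ⟨A4, hA4⟩ : ∃ A4 : Front, A4 = (Piece.pos i).act A3 := ⟨_, rfl⟩
  obtain ⟨e1, he1⟩ := (Rep.three (i := i)).2 (Rep.pos N A1 (i + 1))
  obtain ⟨e2, he2⟩ := (Rep.three (i := i)).1 (Rep.pos N A2 i)
  obtain ⟨e3, he3⟩ := (Rep.three (i := i)).1 (Rep.pos N A3 i)
  obtain ⟨e4, he4⟩ := (Rep.three (i := i)).2 (Rep.pos N A4 (i + 1))
  refine ⟨e1 + (e2 + (e3 + e4)), fun v hv f => ?_⟩
  have key : opD (datJ N v) [.birth (i + 2) b, .pos (i + 1), .pos i, .pos i, .pos (i + 1),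
      .death (i + 2)] A f = Bl (datJ N v) (i + 2) (opD (datJ N v) [.pos (i + 1)] A1
        (opD (datJ N v) [.pos i] A2 (opD (datJ N v) [.pos i] A3 (opD (datJ N v) [.pos (i + 1)] A4
          (Dl (datJ N v) (i + 2) f))))) := by
    rw [hA4, hA3, hA2, hA1]
    rfl
  rw [key, he4 v hv, opD_smul, opD_smul, opD_smul, he3 v hv, opD_smul, opD_smul, he2 v hv,
    opD_smul, he1 v hv, Xl3_mul, Xl3_mul, Xl3_mul, Matrix.mul_assoc, Matrix.mul_assoc]
  simp only [smul_smul, Bl_smul]
  rw [cap3 (datJ N v) (rev_rev N v)]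
  have h7 : v ^ (e1 + (e2 + (e3 + e4))) = v ^ e4 * (v ^ e3 * (v ^ e2 * v ^ e1)) := by
    rw [zpow_add₀ hv.1, zpow_add₀ hv.1, zpow_add₀ hv.1]
    ring
  have h8 : (fun p q : Fin N × Fin N => ∑ x, (datJ N v).c x * (datJ N v).d x *
      (on23 (crossP N v) * (on12 (crossP N v) * (on12 (crossP N v) * on23 (crossP N v))))
        (p.1, (p.2, x)) (q.1, (q.2, x))) = Pool.Agent.N566.VV.belt N v := by
    funext p q
    unfold Pool.Agent.N566.VV.belt
    refine Finset.sum_congr rfl fun x _ => ?_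
    rw [cd hN hv]
  rw [h7, h8]

theorem Rep.rot (N : ℕ) (i : ℕ) (D : Word) (A : Front) (b : Bool)
    (B : ℂ → Matrix (Fin N × Fin N) (Fin N × Fin N) ℂ)
    (h : Rep N D ((Piece.birth (i + 2) b).act A) B (i + 1)) :
    Rep N (.birth (i + 2) b :: D ++ [.death i]) A (fun v => Pool.Agent.N566.VV.rot N v (B v)) i := by
  obtain ⟨e, he⟩ := h
  refine ⟨e, fun v hv f => ?_⟩
  have key : opD (datJ N v) (.birth (i + 2) b :: D ++ [.death i]) A f =
      Bl (datJ N v) (i + 2) (opD (datJ N v) D ((Piece.birth (i + 2) b).act A)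
        (Dl (datJ N v) i f)) := by
    rw [List.cons_append]
    change Bl (datJ N v) (i + 2) (opD (datJ N v) (D ++ [.death i])
      ((Piece.birth (i + 2) b).act A) f) = _
    rw [opD_append]
    rfl
  rw [key, he v hv, Bl_smul, cap2 (datJ N v) (rev_rev N v)]
  congr 2
  funext p q
  unfold Pool.Agent.N566.VV.rot
  change kap N v p.1 * (kap N v (Fin.rev (Fin.rev q.2) : Fin N))⁻¹ *
    B v (p.2, Fin.rev q.2) (Fin.rev p.1, q.1) = _
  rw [Fin.rev_rev, kap_cup hv]

theorem rep_tangle (N : ℕ) (hN : Odd N) (t : Tr) : ∀ (i : ℕ) (D : Word) (A : Front),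
    D.map plain = tangleW i t → Rep N D A (fun v => tangle N v t) i := by
  induction t with
  | single b a =>
    intro i D A h
    change D.map plain = (if b then beltW i else []) ++ crossW i a at h
    rw [List.map_eq_append_iff] at h
    obtain ⟨D1, D2, rfl, h1, h2⟩ := h
    have h3 : Rep N D1 A (fun v => if b then Pool.Agent.N566.VV.belt N v else 1) i := by
      cases b with
      | true => exact Rep.belt N hN i D1 A h1
      | false =>
        have h4 : D1 = [] := List.map_eq_nil_iff.1 h1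
        subst h4
        exact Rep.nil N A i
    exact h3.append (Rep.cross N i a D2 _ h2)
  | join t c iht ihc =>
    intro i D A h
    change D.map plain = tangleW i t ++ (.birth (i + 2) true :: tangleW (i + 1) c ++ [.death i]) at h
    rw [List.map_eq_append_iff] at h
    obtain ⟨D1, D2, rfl, h1, h2⟩ := h
    rw [List.cons_append, List.map_eq_cons_iff] at h2
    obtain ⟨p, w, rfl, hp, hw⟩ := h2
    rw [List.map_eq_append_iff] at hw
    obtain ⟨D3, D4, rfl, h3, h4⟩ := hw
    rw [List.map_eq_cons_iff] at h4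
    obtain ⟨p', w', rfl, hp', hw'⟩ := h4
    rw [List.map_eq_nil_iff] at hw'
    subst hw'
    obtain ⟨b, rfl⟩ := plain_birth hp
    rw [plain_death hp']
    exact (iht i D1 A h1).append (Rep.rot N i D3 _ b _ (ihc (i + 1) D3 _ h3))

theorem s_tw : S_TW := by
  intro N hN t i D A h
  exact rep_tangle N hN t i D A h

end Pool.Agent.N346.VV
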